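import Pool.Agent.Helper40.Ct.Goals

/-! Packet FIND of MP_034a88_co: a nonzero value gives a hit. -/

set_option autoImplicit false

open Finset

namespace Pool.Agent.Helper15.Ct

open Pool.Agent.Helper40.Ct

variable {d r : ℕ}

theorem key {α E : Type} [DecidableEq α] [AddCommGroup E] [Module ℝ E] {N : ℕ} (X : List α)
    (hX : X.Nodup) (q : Fin N → α × El d r) (hq : ∀ t, (q t).1 ∈ X) (c : Fin N → ℝ)
    (P : El d r → Prop) [DecidablePred P] (g : α → El d r → E) :
    ∑ e ∈ univ.filter P, (X.map fun x => (∑ t, if q t = (x, e) then c t else 0) • g x e).sum =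
      ∑ t, if P (q t).2 then c t • g (q t).1 (q t).2 else 0 := by
  have h1 : ∀ e : El d r, (X.map fun x => (∑ t, if q t = (x, e) then c t else 0) • g x e).sum =
      ∑ t, ∑ x ∈ X.toFinset, (if q t = (x, e) then c t else 0) • g x e := by
    intro e
    rw [← List.sum_toFinset _ hX, Finset.sum_comm]
    exact Finset.sum_congr rfl fun x _ => Finset.sum_smul
  simp only [h1]
  rw [Finset.sum_comm]
  refine Finset.sum_congr rfl fun t _ => ?_
  have h2 : ∀ e : El d r, ∑ x ∈ X.toFinset, (if q t = (x, e) then c t else 0) • g x e =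
      if (q t).2 = e then c t • g (q t).1 e else 0 := by
    intro e
    rw [Finset.sum_eq_single (q t).1]
    · by_cases he : (q t).2 = e
      · have h3 : q t = ((q t).1, e) := Prod.ext rfl he
        rw [if_pos he, if_pos h3]
      · rw [if_neg he, if_neg (fun h => he (congrArg Prod.snd h)), zero_smul]
    · intro x _ hx
      rw [if_neg (fun h => hx (congrArg Prod.fst h).symm), zero_smul]
    · intro h
      exact absurd (List.mem_toFinset.2 (hq t)) h
  simp only [h2]
  by_cases hP : P (q t).2
  · rw [if_pos hP, Finset.sum_eq_single (q t).2]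
    · rw [if_pos rfl]
    · intro e _ he
      rw [if_neg (Ne.symm he)]
    · intro h
      exact absurd (mem_filter.2 ⟨mem_univ _, hP⟩) h
  · rw [if_neg hP]
    refine Finset.sum_eq_zero fun e he => ?_
    have := (mem_filter.1 he).2
    rw [if_neg (fun h => hP (by rw [h]; exact this))]

theorem find (h : PATHS) : FIND := by
  classical
  intro d r α u X hX hcc
  obtain ⟨π, -, hπ⟩ := Finset.exists_ne_zero_of_sum_ne_zero hcc
  have hP : Pf (elList d r) (fpi u π) X ≠ 0 := fun h0 => hπ (by rw [h0, mul_zero])
  obtain ⟨l, hl1, hl2⟩ : ∃ l : List (α × El d r), (∀ q ∈ l, q.1 ∈ X) ∧ fpi u π l ≠ 0 := by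
    by_contra hcon
    push Not at hcon
    refine hP (zero_dvd_iff.1 (h α (El d r) 0 (elList d r) X (fpi u π) ?_))
    intro l hl _ _
    exact zero_dvd_iff.2 (hcon l fun q hq => (hl q hq).1)
  rw [fpi, dgL] at hl2
  split_ifs at hl2 with hlen
  swap
  · exact absurd rfl hl2
  rw [dg] at hl2
  split_ifs at hl2 with hc
  swap
  · exact absurd rfl hl2
  obtain ⟨c, hc0, hcs⟩ := hc
  have hlen' : l.length = (d + 1) * (r + 1) := by simpa using hlen
  obtain ⟨q, hq⟩ : ∃ q : Fin ((d + 1) * (r + 1)) → α × El d r,
      ∀ t, q t = l.get (Fin.cast hlen'.symm t) := ⟨_, fun _ => rfl⟩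
  have hqX : ∀ t, (q t).1 ∈ X := by
    intro t
    rw [hq]
    exact hl1 _ (List.get_mem _ _)
  have hsum : ∑ t, c t • enc π (u (q t).1 (q t).2) (q t).2 = bvec d r := by
    rw [← hcs]
    refine Finset.sum_congr rfl fun t _ => ?_
    rw [hq]
    simp
  refine ⟨π, fun x e => ∑ t, if q t = (x, e) then c t else 0, ?_, ?_, ?_⟩
  · intro x e
    refine Finset.sum_nonneg fun t _ => ?_
    split_ifs
    · exact hc0 t
    · exact le_refl _
  · intro x e hx
    refine Finset.sum_eq_zero fun t _ => ?_
    rw [if_neg]
    intro h0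
    apply hx
    have := hqX t
    rw [h0] at this
    exact this
  · intro j
    constructor
    · have k1 := key X hX q hqX c (fun e => part π e = j) (fun _ _ => (1 : ℝ))
      simp only [smul_eq_mul, mul_one] at k1
      rw [k1]
      have k2 := congrFun hsum (finProdFinEquiv (0, j))
      rw [Finset.sum_apply] at k2
      simp only [Pi.smul_apply, enc, bvec, Equiv.symm_apply_apply, Fin.cons_zero, smul_eq_mul,
        if_true, mul_ite, mul_one, mul_zero] at k2
      rw [← k2]
      refine Finset.sum_congr rfl fun t _ => ?_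
      by_cases hj : part π (q t).2 = j
      · rw [if_pos hj, if_pos hj.symm]
      · rw [if_neg hj, if_neg (Ne.symm hj)]
    · rw [key X hX q hqX c (fun e => part π e = j) (fun x e => u x e)]
      funext k
      have k2 := congrFun hsum (finProdFinEquiv (k.succ, j))
      rw [Finset.sum_apply] at k2
      simp only [Pi.smul_apply, enc, bvec, Equiv.symm_apply_apply, Fin.cons_succ, smul_eq_mul,
        Fin.succ_ne_zero, if_false, mul_ite, mul_zero] at k2
      rw [Finset.sum_apply, Pi.zero_apply, ← k2]
      refine Finset.sum_congr rfl fun t _ => ?_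
      by_cases hj : part π (q t).2 = j
      · rw [if_pos hj, if_pos hj.symm, Pi.smul_apply, smul_eq_mul]
      · rw [if_neg hj, if_neg (Ne.symm hj), Pi.zero_apply]

end Pool.Agent.Helper15.Ct
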